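import Mathlib

/-!
MP_6004b5_an, Q1 (disproof): there is a measurable subset `E` of the unit disc and a
sense-preserving univalent harmonic self-map `f` of the disc with
`m(φ(E)) < m(f(E))` for every conformal automorphism `φ` of the disc.
-/

open Metric Set MeasureTheory
open scoped ComplexConjugate

namespace Pool.Agent.Results.MP_6004b5_an.NonConformalWins

/-- The class `𝓗` of sense-preserving univalent harmonic self-maps of the unit disc: `f = h + conj g`
on the disc with `h`, `g` analytic there, `|h'|² - |g'|² > 0` on the disc, `f` injective on the disc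
and `f` maps the disc into itself. -/
def IsHarmonicSelfMap (f : ℂ → ℂ) : Prop :=
  (∃ h g : ℂ → ℂ, DifferentiableOn ℂ h (ball 0 1) ∧ DifferentiableOn ℂ g (ball 0 1) ∧
    (∀ z ∈ ball (0 : ℂ) 1, f z = h z + conj (g z)) ∧
    ∀ z ∈ ball (0 : ℂ) 1, 0 < ‖deriv h z‖ ^ 2 - ‖deriv g z‖ ^ 2) ∧
  InjOn f (ball 0 1) ∧ MapsTo f (ball 0 1) (ball 0 1)

/-- The conformal automorphism `z ↦ e^{iθ} (z - a) / (1 - conj a * z)`. -/
noncomputable def moebius (θ : ℝ) (a : ℂ) (z : ℂ) : ℂ :=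
  Complex.exp (θ * Complex.I) * ((z - a) / (1 - conj a * z))

/-- Determinant of the real-linear map `v ↦ p v + q conj v`. -/
theorem det_lin (p q : ℂ) (L : ℂ →L[ℝ] ℂ) (hL : ∀ v, L v = p * v + q * conj v) :
    L.det = ‖p‖ ^ 2 - ‖q‖ ^ 2 := by
  rw [ContinuousLinearMap.det, ← LinearMap.det_toMatrix Complex.basisOneI, Matrix.det_fin_two]
  simp only [LinearMap.toMatrix_apply, Complex.coe_basisOneI_repr, Complex.coe_basisOneI,
    Matrix.cons_val_zero, Matrix.cons_val_one, ContinuousLinearMap.coe_coe, hL]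
  rw [← Complex.normSq_eq_norm_sq, ← Complex.normSq_eq_norm_sq, Complex.normSq_apply,
    Complex.normSq_apply]
  simp
  ring

/-- The set: two rectangles symmetric about the origin. -/
def E : Set ℂ := {z | 1 / 8 ≤ |z.re| ∧ |z.re| ≤ 1 / 5 ∧ |z.im| ≤ 1 / 20}

theorem E_closed : IsClosed E := by
  have h1 : Continuous fun z : ℂ => |z.re| := Complex.continuous_re.abs
  have h2 : Continuous fun z : ℂ => |z.im| := Complex.continuous_im.abs
  exact (isClosed_le continuous_const h1).inter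
    ((isClosed_le h1 continuous_const).inter (isClosed_le h2 continuous_const))

theorem E_meas : MeasurableSet E := E_closed.measurableSet

theorem E_norm {z : ℂ} (hz : z ∈ E) : ‖z‖ ^ 2 ≤ 1 / 16 := by
  obtain ⟨_, h2, h3⟩ := hz
  rw [← Complex.normSq_eq_norm_sq, Complex.normSq_apply]
  have h4 := sq_abs z.re
  have h5 := sq_abs z.im
  have h6 := abs_nonneg z.re
  have h7 := abs_nonneg z.im
  nlinarith

theorem E_norm' {z : ℂ} (hz : z ∈ E) : ‖z‖ ≤ 1 / 4 := by
  have h := E_norm hz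
  have h0 := norm_nonneg z
  nlinarith

theorem E_sub : E ⊆ ball 0 1 := by
  intro z hz
  rw [mem_ball_zero_iff]
  linarith [E_norm' hz]

theorem E_re {z : ℂ} (hz : z ∈ E) : 1 / 80 ≤ z.re ^ 2 - z.im ^ 2 := by
  obtain ⟨h1, _, h3⟩ := hz
  have h4 := sq_abs z.re
  have h5 := sq_abs z.im
  have h6 := abs_nonneg z.re
  have h7 := abs_nonneg z.im
  nlinarith

theorem E_neg : -E = E := by
  ext z
  simp only [Set.mem_neg, E, Set.mem_ofPred_eq, Complex.neg_re, Complex.neg_im, abs_neg]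

theorem E_pos : 0 < volume E := by
  have hopen : IsOpen {z : ℂ | 1 / 8 < z.re ∧ z.re < 1 / 5 ∧ |z.im| < 1 / 20} :=
    (isOpen_lt continuous_const Complex.continuous_re).inter
      ((isOpen_lt Complex.continuous_re continuous_const).inter
        (isOpen_lt Complex.continuous_im.abs continuous_const))
  have hne : {z : ℂ | 1 / 8 < z.re ∧ z.re < 1 / 5 ∧ |z.im| < 1 / 20}.Nonempty :=
    ⟨((3 / 20 : ℝ) : ℂ), by norm_num⟩
  refine (hopen.measure_pos volume hne).trans_le (measure_mono ?_)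
  rintro z ⟨h1, h2, h3⟩
  have h4 : |z.re| = z.re := abs_of_pos (by linarith)
  exact ⟨by rw [h4]; exact h1.le, by rw [h4]; exact h2.le, h3.le⟩

theorem E_fin : volume E ≠ ⊤ :=
  ((measure_mono E_sub).trans_lt measure_ball_lt_top).ne

/-- Algebraic inequality behind `m(φ(E)) ≤ m(E)`. -/
theorem key_ineq (s q x : ℝ) (hs0 : 0 ≤ s) (hs : s < 1) (hq0 : 0 ≤ q) (hq : 16 * q ≤ s)
    (hx : x ^ 2 ≤ q) :
    (1 - s) ^ 2 / (1 + q - 2 * x) ^ 2 + (1 - s) ^ 2 / (1 + q + 2 * x) ^ 2 ≤ 2 := by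
  have hq1 : q < 1 := by linarith
  have hxa : (2 * x) ^ 2 < (1 + q) ^ 2 := by nlinarith
  have habs : |2 * x| < 1 + q := by
    rw [← abs_of_nonneg (by linarith : 0 ≤ 1 + q)]
    exact sq_lt_sq.mp hxa
  rw [abs_lt] at habs
  have hA : 0 < 1 + q - 2 * x := by linarith [habs.2]
  have hB : 0 < 1 + q + 2 * x := by linarith [habs.1]
  rw [div_add_div _ _ (by positivity) (by positivity), div_le_iff₀ (by positivity)]
  have hAB : (1 + q - 2 * x) * (1 + q + 2 * x) = (1 + q) ^ 2 - 4 * x ^ 2 := by ring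
  have h1 : (1 - q) ^ 2 ≤ (1 + q - 2 * x) * (1 + q + 2 * x) := by rw [hAB]; nlinarith
  have h2 : (1 - s) * (1 + 3 * q) ≤ (1 - q) ^ 2 := by nlinarith
  have h3 : 0 ≤ (1 - s) * (1 + 3 * q) := by
    apply mul_nonneg <;> linarith
  have h4 : ((1 - s) * (1 + 3 * q)) ^ 2 ≤ ((1 + q - 2 * x) * (1 + q + 2 * x)) ^ 2 :=
    pow_le_pow_left₀ h3 (h2.trans h1) 2
  have h5 : (1 + q - 2 * x) ^ 2 + (1 + q + 2 * x) ^ 2 ≤ 2 * (1 + 3 * q) ^ 2 := by nlinarith
  have h6 : (1 - s) ^ 2 * ((1 + q - 2 * x) ^ 2 + (1 + q + 2 * x) ^ 2) ≤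
      (1 - s) ^ 2 * (2 * (1 + 3 * q) ^ 2) := mul_le_mul_of_nonneg_left h5 (sq_nonneg _)
  nlinarith

/-- Automorphisms do not increase the area of `E`. -/
theorem moebius_le (θ : ℝ) (a : ℂ) (ha : ‖a‖ < 1) : volume (moebius θ a '' E) ≤ volume E := by
  have hden : ∀ z ∈ ball (0 : ℂ) 1, 1 - conj a * z ≠ 0 := by
    intro z hz h
    rw [mem_ball_zero_iff] at hz
    have h1 : conj a * z = 1 := by linear_combination -h
    have h2 : ‖conj a * z‖ = 1 := by rw [h1, norm_one]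
    rw [norm_mul, RCLike.norm_conj] at h2
    have := norm_nonneg a
    have := norm_nonneg z
    nlinarith
  have hder : ∀ z ∈ ball (0 : ℂ) 1, HasDerivAt (moebius θ a)
      (Complex.exp (θ * Complex.I) * ((1 - conj a * a) / (1 - conj a * z) ^ 2)) z := by
    intro z hz
    have h1 : HasDerivAt (fun z : ℂ => z - a) 1 z := (hasDerivAt_id z).sub_const a
    have h2 : HasDerivAt (fun z : ℂ => 1 - conj a * z) (-(conj a)) z := by
      have := ((hasDerivAt_id z).const_mul (conj a)).const_sub 1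
      simpa using this
    have h3 := (h1.div h2 (hden z hz)).const_mul (Complex.exp (θ * Complex.I))
    refine h3.congr_deriv ?_
    congr 2
    ring
  have hinj : InjOn (moebius θ a) E := by
    intro z hz w hw h
    have hz' := hden z (E_sub hz)
    have hw' := hden w (E_sub hw)
    unfold moebius at h
    have h1 := mul_left_cancel₀ (Complex.exp_ne_zero _) h
    rw [div_eq_div_iff hz' hw'] at h1
    have h2 : (z - w) * (1 - conj a * a) = 0 := by linear_combination h1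
    rcases mul_eq_zero.mp h2 with h3 | h3
    · exact sub_eq_zero.mp h3
    · exfalso
      have h4 : conj a * a = 1 := by linear_combination -h3
      have h5 : ‖conj a * a‖ = 1 := by rw [h4, norm_one]
      rw [norm_mul, RCLike.norm_conj] at h5
      have := norm_nonneg a
      nlinarith
  -- the change of variables formula
  set D : ℂ → ℂ := fun z => Complex.exp (θ * Complex.I) * ((1 - conj a * a) / (1 - conj a * z) ^ 2)
    with hD
  have hcv := lintegral_abs_det_fderiv_eq_addHaar_image volume E_meas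
    (f := moebius θ a)
    (f' := fun z => (ContinuousLinearMap.toSpanSingleton ℂ (D z)).restrictScalars ℝ)
    (fun z hz => ((hder z (E_sub hz)).hasFDerivAt.restrictScalars ℝ).hasFDerivWithinAt) hinj
  have hdet : ∀ z : ℂ, |((ContinuousLinearMap.toSpanSingleton ℂ (D z)).restrictScalars ℝ).det| =
      ‖D z‖ ^ 2 := by
    intro z
    rw [det_lin (D z) 0 _ (fun v => by
      simp [ContinuousLinearMap.toSpanSingleton_apply, mul_comm])]
    simp
  simp only [hdet] at hcv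
  rw [← hcv]
  have hsymm : ∫⁻ z in E, ENNReal.ofReal (‖D z‖ ^ 2) = ∫⁻ z in E, ENNReal.ofReal (‖D (-z)‖ ^ 2) := by
    have h := (Measure.measurePreserving_neg (volume : Measure ℂ)).setLIntegral_comp_preimage_emb
      (MeasurableEquiv.neg ℂ).measurableEmbedding (fun z => ENNReal.ofReal (‖D z‖ ^ 2)) E
    have hE : (Neg.neg : ℂ → ℂ) ⁻¹' E = E := E_neg
    rw [hE] at h
    exact h.symm
  have hnormD : ∀ z : ℂ, ‖D z‖ ^ 2 = (1 - ‖a‖ ^ 2) ^ 2 / (‖1 - conj a * z‖ ^ 2) ^ 2 := by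
    intro z
    have h1 : (1 - conj a * a : ℂ) = ((1 - ‖a‖ ^ 2 : ℝ) : ℂ) := by
      rw [mul_comm, Complex.mul_conj, Complex.normSq_eq_norm_sq]
      push_cast
      ring
    rw [hD]
    simp only
    rw [norm_mul, Complex.norm_exp_ofReal_mul_I, one_mul, norm_div, h1, Complex.norm_real, norm_pow,
      div_pow, Real.norm_eq_abs, sq_abs]
  have hmeasD : Measurable fun z => ENNReal.ofReal (‖D z‖ ^ 2) := by
    have : Measurable D := by
      rw [hD]
      fun_prop
    fun_prop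
  have hbound : ∀ z ∈ E, ENNReal.ofReal (‖D z‖ ^ 2) + ENNReal.ofReal (‖D (-z)‖ ^ 2) ≤ 2 := by
    intro z hz
    rw [← ENNReal.ofReal_add (by positivity) (by positivity)]
    rw [show (2 : ENNReal) = ENNReal.ofReal 2 by norm_num]
    apply ENNReal.ofReal_le_ofReal
    rw [hnormD, hnormD]
    have h1 : ‖1 - conj a * z‖ ^ 2 = 1 + ‖a‖ ^ 2 * ‖z‖ ^ 2 - 2 * (conj a * z).re := by
      rw [← mul_pow, ← RCLike.norm_conj a, ← norm_mul, ← Complex.normSq_eq_norm_sq,
        ← Complex.normSq_eq_norm_sq, Complex.normSq_sub]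
      simp
    have h2 : ‖1 - conj a * (-z)‖ ^ 2 = 1 + ‖a‖ ^ 2 * ‖z‖ ^ 2 + 2 * (conj a * z).re := by
      rw [mul_neg, sub_neg_eq_add, ← mul_pow, ← RCLike.norm_conj a, ← norm_mul,
        ← Complex.normSq_eq_norm_sq, ← Complex.normSq_eq_norm_sq, Complex.normSq_add]
      simp
    rw [h1, h2]
    apply key_ineq (‖a‖ ^ 2) (‖a‖ ^ 2 * ‖z‖ ^ 2) (conj a * z).re (sq_nonneg _)
    · have := norm_nonneg a
      nlinarith
    · positivity
    · have := E_norm hz
      have := sq_nonneg ‖a‖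
      nlinarith
    · rw [← mul_pow, ← RCLike.norm_conj a, ← norm_mul, ← sq_abs]
      exact pow_le_pow_left₀ (abs_nonneg _) (Complex.abs_re_le_norm _) 2
  have h2 : 2 * ∫⁻ z in E, ENNReal.ofReal (‖D z‖ ^ 2) ≤ 2 * volume E := by
    calc 2 * ∫⁻ z in E, ENNReal.ofReal (‖D z‖ ^ 2)
        = (∫⁻ z in E, ENNReal.ofReal (‖D z‖ ^ 2)) + (∫⁻ z in E, ENNReal.ofReal (‖D (-z)‖ ^ 2)) := by
          rw [two_mul, ← hsymm]
      _ = ∫⁻ z in E, (ENNReal.ofReal (‖D z‖ ^ 2) + ENNReal.ofReal (‖D (-z)‖ ^ 2)) := by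
          rw [lintegral_add_left hmeasD]
      _ ≤ ∫⁻ _ in E, 2 := setLIntegral_mono' E_meas hbound
      _ = 2 * volume E := by rw [setLIntegral_const]
  exact (ENNReal.mul_le_mul_iff_right (by norm_num) (by norm_num)).mp h2

/-- The competitor. -/
noncomputable def F (z : ℂ) : ℂ :=
  (99999 / 100000) * z + (1 / 1000) * z ^ 3 + conj (-(1 / 1000) * z)

theorem F_deriv_h (z : ℂ) :
    HasDerivAt (fun z : ℂ => (99999 / 100000) * z + (1 / 1000) * z ^ 3)
      (99999 / 100000 + (3 / 1000) * z ^ 2) z := by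
  have h1 := ((hasDerivAt_id z).const_mul (99999 / 100000 : ℂ)).add
    ((hasDerivAt_pow 3 z).const_mul (1 / 1000 : ℂ))
  refine h1.congr_deriv ?_
  push_cast
  ring

theorem F_deriv_g (z : ℂ) : HasDerivAt (fun z : ℂ => -(1 / 1000) * z) (-(1 / 1000)) z := by
  have h1 := (hasDerivAt_id z).const_mul (-(1 / 1000) : ℂ)
  simpa using h1

theorem F_inj : InjOn F (ball 0 1) := by
  intro z hz w hw h
  rw [mem_ball_zero_iff] at hz hw
  by_contra hne
  have h1 : (z - w) * (99999 / 100000 + (1 / 1000) * (z ^ 2 + z * w + w ^ 2)) =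
      (1 / 1000) * conj (z - w) := by
    unfold F at h
    simp only [map_sub, map_mul, map_neg] at h ⊢
    have h2 : conj (1 / 1000 : ℂ) = 1 / 1000 := by
      rw [show (1 / 1000 : ℂ) = ((1 / 1000 : ℝ) : ℂ) by push_cast; ring, Complex.conj_ofReal]
    rw [h2] at h
    linear_combination h
  have h2 := congrArg norm h1
  rw [norm_mul, norm_mul, RCLike.norm_conj] at h2
  have hpos : 0 < ‖z - w‖ := norm_pos_iff.mpr (sub_ne_zero.mpr hne)
  have h3 : ‖(99999 / 100000 + (1 / 1000) * (z ^ 2 + z * w + w ^ 2) : ℂ)‖ = ‖(1 / 1000 : ℂ)‖ := by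
    have := mul_left_cancel₀ hpos.ne' (by rw [h2]; ring :
      ‖z - w‖ * ‖(99999 / 100000 + (1 / 1000) * (z ^ 2 + z * w + w ^ 2) : ℂ)‖ =
        ‖z - w‖ * ‖(1 / 1000 : ℂ)‖)
    exact this
  have h4 : ‖(1 / 1000 : ℂ)‖ = 1 / 1000 := by norm_num
  have h5 : ‖((1 / 1000) * (z ^ 2 + z * w + w ^ 2) : ℂ)‖ ≤ 3 / 1000 := by
    rw [norm_mul, h4]
    have h6 : ‖z ^ 2 + z * w + w ^ 2‖ ≤ ‖z‖ ^ 2 + ‖z‖ * ‖w‖ + ‖w‖ ^ 2 := by
      refine (norm_add_le _ _).trans ?_
      rw [norm_pow]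
      refine add_le_add_left ((norm_add_le _ _).trans ?_) _ 
      rw [norm_pow, norm_mul]
    have := norm_nonneg z
    have := norm_nonneg w
    nlinarith
  have h6 : ‖(99999 / 100000 : ℂ)‖ ≤ ‖(99999 / 100000 + (1 / 1000) * (z ^ 2 + z * w + w ^ 2) : ℂ)‖ +
      ‖((1 / 1000) * (z ^ 2 + z * w + w ^ 2) : ℂ)‖ := by
    have := norm_sub_le (99999 / 100000 + (1 / 1000) * (z ^ 2 + z * w + w ^ 2) : ℂ)
      ((1 / 1000) * (z ^ 2 + z * w + w ^ 2))
    rwa [add_sub_cancel_right] at this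
  have h7 : ‖(99999 / 100000 : ℂ)‖ = 99999 / 100000 := by norm_num
  rw [h3, h4, h7] at h6
  linarith

theorem F_maps : MapsTo F (ball 0 1) (ball 0 1) := by
  intro z hz
  rw [mem_ball_zero_iff] at hz ⊢
  have hz2 : z.re ^ 2 + z.im ^ 2 < 1 := by
    have h1 : ‖z‖ ^ 2 = z.re ^ 2 + z.im ^ 2 := by
      rw [← Complex.normSq_eq_norm_sq, Complex.normSq_apply]; ring
    rw [← h1]
    have := norm_nonneg z
    nlinarith
  have hre : (F z).re = (99999 / 100000) * z.re + (1 / 1000) * (z.re ^ 3 - 3 * z.re * z.im ^ 2) -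
      (1 / 1000) * z.re := by
    unfold F
    simp [pow_succ]
    ring
  have him : (F z).im = (99999 / 100000) * z.im + (1 / 1000) * (3 * z.re ^ 2 * z.im - z.im ^ 3) +
      (1 / 1000) * z.im := by
    unfold F
    simp [pow_succ]
    ring
  have hsq : ‖F z‖ ^ 2 < 1 := by
    rw [← Complex.normSq_eq_norm_sq, Complex.normSq_apply, hre, him]
    set x := z.re
    set y := z.im
    have h1 : 0 ≤ (1 - (x ^ 2 + y ^ 2)) * ((x ^ 2 - y ^ 2) + (x ^ 2 + y ^ 2)) := by
      apply mul_nonneg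
      · linarith
      · nlinarith [sq_nonneg x]
    have h2 : 0 ≤ x ^ 2 + y ^ 2 := by positivity
    have h3 : (x ^ 2 + y ^ 2) ^ 2 ≤ x ^ 2 + y ^ 2 := by nlinarith
    have h4 : (x ^ 2 + y ^ 2) ^ 3 ≤ x ^ 2 + y ^ 2 := by nlinarith
    have h5 : 0 ≤ (x ^ 2 - y ^ 2) ^ 2 := sq_nonneg _
    nlinarith
  have := norm_nonneg (F z)
  nlinarith

/-- **Answer to Q1 (disproof).** -/
theorem result :
    ∃ E : Set ℂ, MeasurableSet E ∧ E ⊆ ball 0 1 ∧ ∃ f : ℂ → ℂ, IsHarmonicSelfMap f ∧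
      ∀ (θ : ℝ) (a : ℂ), ‖a‖ < 1 → volume (moebius θ a '' E) < volume (f '' E) := by
  refine ⟨E, E_meas, E_sub, F, ⟨⟨fun z => (99999 / 100000) * z + (1 / 1000) * z ^ 3,
    fun z => -(1 / 1000) * z, ?_, ?_, ?_, ?_⟩, F_inj, F_maps⟩, ?_⟩
  · exact fun z _ => (F_deriv_h z).differentiableAt.differentiableWithinAt
  · exact fun z _ => (F_deriv_g z).differentiableAt.differentiableWithinAt
  · intro z _
    rfl
  · intro z hz
    rw [(F_deriv_h z).deriv, (F_deriv_g z).deriv]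
    rw [mem_ball_zero_iff] at hz
    have h1 : ‖(99999 / 100000 : ℂ)‖ ≤ ‖(99999 / 100000 + (3 / 1000) * z ^ 2 : ℂ)‖ +
        ‖((3 / 1000) * z ^ 2 : ℂ)‖ := by
      have := norm_sub_le (99999 / 100000 + (3 / 1000) * z ^ 2 : ℂ) ((3 / 1000) * z ^ 2)
      rwa [add_sub_cancel_right] at this
    have h2 : ‖((3 / 1000) * z ^ 2 : ℂ)‖ ≤ 3 / 1000 := by
      rw [norm_mul, norm_pow]
      have h3 : ‖(3 / 1000 : ℂ)‖ = 3 / 1000 := by norm_num
      rw [h3]
      have := norm_nonneg z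
      nlinarith
    have h7 : ‖(99999 / 100000 : ℂ)‖ = 99999 / 100000 := by norm_num
    have h8 : ‖(-(1 / 1000) : ℂ)‖ = 1 / 1000 := by norm_num
    rw [h7] at h1
    rw [h8]
    nlinarith
  · intro θ a ha
    refine lt_of_le_of_lt (moebius_le θ a ha) ?_
    let L : ℂ → (ℂ →L[ℝ] ℂ) := fun z =>
      (ContinuousLinearMap.toSpanSingleton ℂ
        (99999 / 100000 + (3 / 1000) * z ^ 2 : ℂ)).restrictScalars ℝ +
      (Complex.conjCLE : ℂ →L[ℝ] ℂ).comp
        ((ContinuousLinearMap.toSpanSingleton ℂ (-(1 / 1000) : ℂ)).restrictScalars ℝ)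
    have hL : ∀ z, HasFDerivAt F (L z) z := by
      intro z
      have h1 := (F_deriv_h z).hasFDerivAt.restrictScalars ℝ
      have h2 := (F_deriv_g z).hasFDerivAt.restrictScalars ℝ
      exact h1.add (((Complex.conjCLE : ℂ →L[ℝ] ℂ).hasFDerivAt).comp z h2)
    have hcv := lintegral_abs_det_fderiv_eq_addHaar_image volume E_meas
      (f := F) (f' := L) (fun z _ => (hL z).hasFDerivWithinAt) (F_inj.mono E_sub)
    rw [← hcv]
    have hconj : conj (1 / 1000 : ℂ) = 1 / 1000 := by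
      rw [show (1 / 1000 : ℂ) = ((1 / 1000 : ℝ) : ℂ) by push_cast; ring, Complex.conj_ofReal]
    have hdet : ∀ z ∈ E, (100001 / 100000 : ℝ) ≤ |(L z).det| := by
      intro z hz
      rw [det_lin (99999 / 100000 + (3 / 1000) * z ^ 2) (-(1 / 1000)) (L z) (fun v => by
        simp only [L, add_apply, ContinuousLinearMap.coe_restrictScalars',
          ContinuousLinearMap.toSpanSingleton_apply, ContinuousLinearMap.comp_apply,
          ContinuousLinearEquiv.coe_coe, Complex.conjCLE_apply, smul_eq_mul, map_mul, map_neg,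
          hconj]
        ring)]
      refine le_trans ?_ (le_abs_self _)
      have h8 : ‖(-(1 / 1000) : ℂ)‖ = 1 / 1000 := by norm_num
      rw [h8, ← Complex.normSq_eq_norm_sq, Complex.normSq_apply]
      have hre : (99999 / 100000 + (3 / 1000) * z ^ 2 : ℂ).re =
          99999 / 100000 + (3 / 1000) * (z.re ^ 2 - z.im ^ 2) := by
        rw [show (99999 / 100000 + (3 / 1000) * z ^ 2 : ℂ) =
          (((99999 / 100000 : ℝ) : ℂ) + ((3 / 1000 : ℝ) : ℂ) * (z * z)) by push_cast; ring]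
        rw [Complex.add_re, Complex.ofReal_re, Complex.re_ofReal_mul, Complex.mul_re]
        ring
      rw [hre]
      have h9 := E_re hz
      nlinarith [mul_self_nonneg (99999 / 100000 + (3 / 1000) * z ^ 2 : ℂ).im,
        sq_nonneg (z.re ^ 2 - z.im ^ 2)]
    calc volume E = 1 * volume E := (one_mul _).symm
      _ < ENNReal.ofReal (100001 / 100000) * volume E := by
        refine (ENNReal.mul_lt_mul_iff_left E_pos.ne' E_fin).mpr ?_
        rw [← ENNReal.ofReal_one]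
        exact (ENNReal.ofReal_lt_ofReal_iff (by norm_num)).mpr (by norm_num)
      _ = ∫⁻ _ in E, ENNReal.ofReal (100001 / 100000) := by rw [setLIntegral_const]
      _ ≤ ∫⁻ z in E, ENNReal.ofReal |(L z).det| :=
        setLIntegral_mono' E_meas fun z hz => ENNReal.ofReal_le_ofReal (hdet z hz)

end Pool.Agent.Results.MP_6004b5_an.NonConformalWins
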